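import Pool.Agent.Helper75.CR.St

set_option autoImplicit false

namespace Pool.Agent.Helper60.CR

open Pool.Agent.Helper75.CR

theorem aux_sub {B : Type} (S : Sgn B) (ρ : Pg S) (k : ℕ) (x : Wo B) (hx : x ≠ []) (s t : Wo B) (b c : B)
    (hk : k ∉ cn s) (hst : cn s = cn t) (h : Er ρ (s ++ [(k, b)]) (t ++ [(k, c)])) :
    Er ρ (s ++ S.sg b x) (t ++ S.sg c x) := by
  have h1 := Er.sub (fun l => if l = k then x else [(l, S.o)]) (by
    intro i
    by_cases hi : i = k
    · simp [hi, hx]
    · simp [hi]) h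
  have hs : sB S (fun l => if l = k then x else [(l, S.o)]) s = s := sB_fix S _ s (by
    intro i hi
    have : i ≠ k := fun h => hk (h ▸ hi)
    simp [this])
  have ht : sB S (fun l => if l = k then x else [(l, S.o)]) t = t := sB_fix S _ t (by
    intro i hi
    rw [← hst] at hi
    have : i ≠ k := fun h => hk (h ▸ hi)
    simp [this])
  rw [sB_append, sB_append, sB_single, sB_single, hs, ht] at h1
  simpa using h1

theorem hE : StE := by
  intro B S θ ρ hθ hle k b c s t hbc hs hst hk h w j d e hw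
  -- step 1
  obtain ⟨p, q, hp1, hp2, hp3, hp4⟩ := hθ.h2 [(k, S.o)] (by simp)
  have hpne : p ≠ [] := ne_nil_of_cn hp4.symm (by simp)
  obtain ⟨a0, p', rfl⟩ : ∃ a0 p', p = a0 :: p' := by
    cases p with
    | nil => exact absurd rfl hpne
    | cons a0 p' => exact ⟨a0, p', rfl⟩
  have hpc : cn (a0 :: p') = {k} := by simpa using hp4
  have ha0 : a0.1 = k := by
    have : a0.1 ∈ cn (a0 :: p') := by simp
    rw [hpc] at this
    simpa using this
  obtain ⟨i0, b1⟩ := a0
  simp only at ha0
  subst ha0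
  have hp'c : cn p' ⊆ {i0} := by
    rw [← hpc, cn_cons]
    exact Finset.subset_insert _ _
  have htne : t ≠ [] := ne_nil_of_cn hst hs
  have hkt : i0 ∉ cn t := hst ▸ hk
  have h1 := aux_sub S ρ i0 ((i0, b1) :: p') (by simp) s t b c hk hst h
  have key : ∀ (r : Wo B) (g : B), r ≠ [] → Er ρ (r ++ [(i0, b1)]) (r ++ S.sg g ((i0, b1) :: p')) := by
    intro r g hr
    have e1 : Er ρ (r ++ [(i0, b1)]) (r ++ [(i0, b1)] ++ p') := hθ.extρ hle (by simp) (by
      intro x hx
      have := hp'c hx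
      rw [Finset.mem_singleton] at this
      subst this
      simp)
    have e2 : Er ρ (r ++ ((i0, b1) :: p')) (r ++ S.sg g ((i0, b1) :: p')) :=
      (Er.of hθ.cp (by simp) (θ.mulL r (θ.symm' (hp3 g)))).mono hle
    refine e1.trans ?_
    simpa using e2
  have h2 : Er ρ (s ++ [(i0, b1)]) (t ++ [(i0, b1)]) :=
    ((key s b hs).trans h1).trans (key t c htne).symm
  -- step 2
  have h3 : Er ρ (s ++ [(i0, b)]) (t ++ [(i0, b)]) := by
    obtain ⟨w', hw', hw'2⟩ := S.sur b1 [(i0, b)] (by simp)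
    have := aux_sub S ρ i0 w' hw' s t b1 b1 hk hst h2
    rwa [hw'2] at this
  have h4 : Er ρ (t ++ [(i0, b)]) (t ++ [(i0, c)]) := h3.symm.trans h
  -- step 3
  have h5 := Er.sub (fun l => if l = i0 then [(1, S.o)] else [(0, S.o)]) (by
    intro i
    by_cases hi : i = i0 <;> simp [hi]) h4
  rw [sB_append, sB_append, sB_single, sB_single] at h5
  simp only [if_true, S.lit] at h5
  obtain ⟨V, hV⟩ : ∃ V, V = sB S (fun l => if l = i0 then [(1, S.o)] else [(0, S.o)]) t := ⟨_, rfl⟩
  rw [← hV] at h5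
  have hVne : V ≠ [] := by
    rw [hV]
    exact sB_ne S _ (by
      intro i
      by_cases hi : i = i0 <;> simp [hi]) htne
  have hVc : cn V = {0} := by
    rw [hV]
    refine cn_sB_const S _ {0} htne ?_
    intro i hi
    have : i ≠ i0 := fun h => hkt (h ▸ hi)
    simp [this]
  obtain ⟨V', v0, hV'⟩ : ∃ V' v0, V = V' ++ [v0] := by
    rcases List.eq_nil_or_concat V with h | ⟨V', v0, h⟩
    · exact absurd h hVne
    · exact ⟨V', v0, by simpa using h⟩
  have hv0 : v0.1 = 0 := by
    have : v0.1 ∈ cn V := by rw [hV']; simp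
    rw [hVc] at this
    simpa using this
  obtain ⟨z0, b0⟩ := v0
  simp only at hv0
  subst hv0
  have hV'c : cn V' ⊆ {0} := by
    rw [← hVc, hV', cn_append]
    exact Finset.subset_union_left
  obtain ⟨x, hx⟩ := hθ.h1' [(0, b0)] V' (by simp) (by simpa using hV'c)
  have hx' : θ.r [(0, b0)] (x ++ V) := by
    rw [hV']
    simpa using hx
  have key2 : ∀ g : B, Er ρ ([(0, b0)] ++ [(1, g)]) (x ++ (V ++ [(1, g)])) := by
    intro g
    have := (Er.of hθ.cp (by simp) (θ.mulR [(1, g)] hx')).mono hle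
    simpa [List.append_assoc] using this
  have h6 : Er ρ ([(0, b0)] ++ [(1, b)]) ([(0, b0)] ++ [(1, c)]) :=
    ((key2 b).trans (h5.mulL x)).trans (key2 c).symm
  -- step 4
  obtain ⟨w'', hw'', hw''2⟩ := S.sur b0 w hw
  have h7 := Er.sub (fun l => if l = 0 then w'' else [(j, S.o)]) (by
    intro i
    by_cases hi : i = 0
    · simp [hi, hw'']
    · simp [hi]) h6
  rw [sB_append, sB_append, sB_single, sB_single, sB_single] at h7
  simp only [if_true, one_ne_zero, if_false, S.lit, hw''2] at h7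
  rcases S.two b c d e hbc with h | ⟨h, h'⟩ | ⟨h, h'⟩
  · subst h
    exact Er.rfl' ρ (by simp)
  · subst h
    subst h'
    exact h7
  · subst h
    subst h'
    exact h7.symm

end Pool.Agent.Helper60.CR
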